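import Pool.Agent.H92.D2.Tub
import Pool.Agent.H68.OWN.Jc
import Pool.Agent.H68.OWN.Srow
import Pool.Agent.H65.LEAF.Low

/-!
# V1 empty: the value at the centre of the tube

Law level. `tC`: the context of the tube. `hgt_few`: the value at the centre of the tube is few bits
given the key. `nat_few`: the natural jets. `ctr_few`: the value given the record. `row_ctr`: the rows
of the value at the centre are not full given the context, from the rows of the own path.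
-/

set_option autoImplicit false

namespace Pool.V1E

open Finset Real
open Pool.Agent.H49.Ent Pool.Agent.H32.Dense Pool.STK Pool.D2A Pool.D2Con
open Pool.BFL (Pb)
open Pool.D2G30
open MvPolynomial (eval pderiv)

/-- The context of the tube: its code and the closed digits of the labels. -/
noncomputable def tC {Λ κ : Type} (K d D Q M : ℕ) (c : Λ → κ) (P : Λ → Gr K d → Polynomial ℝ)
    (x : Λ) : κ × ((Gr K d → Fin (D + 1) → ℤ) × (Fin (D + 1) → ℤ)) :=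
  (c x, ((fun (β : Gr K d) (j : Fin (D + 1)) =>
      ⌊2 ^ M * ((P x β).coeff j - (P x (fun _ => 0)).coeff j)⌋),
      fun j : Fin (D + 1) => ⌊2 ^ (M - Q) * (P x (fun _ => 0)).coeff j⌋))

/-! ### Polynomials -/

theorem ell_one {K d : ℕ} (hK : 1 ≤ K) (x : Fin d → ℝ) : ∑ β : Gr K d, ell K β x = 1 := by
  have h := ell_interp hK (MvPolynomial.C 1) (by rw [MvPolynomial.totalDegree_C]; omega) x
  simp only [MvPolynomial.eval_C, mul_one] at h
  exact h.symm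

theorem eval_le {D : ℕ} {P : Polynomial ℝ} (hP : P.natDegree ≤ D) {B u : ℝ} (hu : |u| ≤ 1)
    (h : ∀ j ≤ D, |P.coeff j| ≤ B) : |P.eval u| ≤ (D + 1) * B := by
  rw [Polynomial.eval_eq_sum_range' (Nat.lt_succ_of_le hP)]
  refine (Finset.abs_sum_le_sum_abs _ _).trans ?_
  have h1 : ∀ i ∈ range (D + 1), |P.coeff i * u ^ i| ≤ B := by
    intro i hi
    rw [abs_mul, abs_pow]
    have h2 := h i (Nat.lt_succ_iff.1 (mem_range.1 hi))
    calc |P.coeff i| * |u| ^ i ≤ B * 1 :=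
          mul_le_mul h2 (pow_le_one₀ (abs_nonneg _) hu) (by positivity) ((abs_nonneg _).trans h2)
      _ = B := mul_one _
  refine (Finset.sum_le_sum h1).trans (le_of_eq ?_)
  rw [Finset.sum_const, Finset.card_range, nsmul_eq_mul]
  push_cast
  ring

/-- From equal cells. -/
theorem of_cell {M : ℕ} {x y : ℝ} (h : ⌊(2 : ℝ) ^ M * x⌋ = ⌊2 ^ M * y⌋) :
    |x - y| ≤ 1 / 2 ^ M := by
  have h1 := (Int.abs_sub_lt_one_of_floor_eq_floor h).le
  have h2 : (0 : ℝ) < 2 ^ M := by positivity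
  rw [← mul_sub, abs_mul, abs_of_pos h2] at h1
  rw [le_div_iff₀ h2]
  linarith

section law

variable {K d D CM Q MB k N₀ M : ℕ} {δ : ℝ} {Ω Λ ζ α ε κ : Type} [Fintype Ω] {q : Ω → ℝ}
  {L : Ω → Λ} {T : Ω → ℕ} {Z : Ω → ζ} {a : Ω → α} {E : Ω → ε} {X : ε → Fin (d + 1) → ℝ}
  {Pf : ζ → MvPolynomial (Fin d) ℝ} {Pg : ζ → Fin (d + 1) → MvPolynomial (Fin d) ℝ}
  {c : Λ → κ} {s : Ω → Fin d → ℝ} {ξ : Λ → Fin d → ℝ} {n : Λ → Polynomial ℝ}
  {Θ : Λ → Fin d → Polynomial ℝ} {P : Λ → Gr K d → Polynomial ℝ}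

theorem TL.uu_abs (h : TL K d D CM Q MB k N₀ δ q L T Z a E X Pf Pg c s ξ n Θ) {ω : Ω}
    (hω : 0 < q ω) : |uu N₀ T ω| ≤ 1 := by
  have h1 := h.Tlt ω hω
  have h2 : (0 : ℝ) < N₀ := by
    have : 0 < N₀ := by omega
    exact_mod_cast this
  have h3 : (T ω : ℝ) ≤ N₀ := by exact_mod_cast h1.le
  unfold uu
  rw [abs_of_nonneg (by positivity)]
  exact (div_le_one h2).2 h3

theorem TL.Q0 (h : TL K d D CM Q MB k N₀ δ q L T Z a E X Pf Pg c s ξ n Θ) : 0 ≤ δ * Q :=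
  mul_nonneg h.δ0 (Nat.cast_nonneg Q)

theorem TL.two1 (h : TL K d D CM Q MB k N₀ δ q L T Z a E X Pf Pg c s ξ n Θ) :
    (1 : ℝ) ≤ 2 ^ (δ * Q) := Real.one_le_rpow (by norm_num) h.Q0

/-- The context is few bits given the full key. -/
theorem tC_few (hT : TL K d D CM Q MB k N₀ δ q L T Z a E X Pf Pg c s ξ n Θ)
    (hI : Im K d D Q M N₀ δ q L T Z a E Pf c s ξ n P) :
    CH q (fun ω => tC K d D Q M c P (L ω)) (fun ω => (E ω, Key M Z a Pf ω)) ≤ δ * Q := by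
  refine le_trans (CH_mono_cond hT.law.nonneg fun ω ω' _ _ e => ?_) hI.few
  simp only [Prod.mk.injEq] at e ⊢
  exact ⟨e.1, key_det (M - Q) M (Nat.sub_le _ _) e.2⟩

/-- The context is few bits given the record. -/
theorem tC_fewZ (hT : TL K d D CM Q MB k N₀ δ q L T Z a E X Pf Pg c s ξ n Θ)
    (hI : Im K d D Q M N₀ δ q L T Z a E Pf c s ξ n P) {γ : Type} (W : Ω → γ) :
    CH q (fun ω => tC K d D Q M c P (L ω)) (fun ω => (Z ω, (E ω, W ω))) ≤ δ * Q := by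
  refine le_trans (CH_mono_cond hT.law.nonneg fun ω ω' hω hω' e => ?_) hI.few
  simp only [Prod.mk.injEq] at e ⊢
  refine ⟨e.2.1, ?_⟩
  unfold Key
  rw [hT.Za ω ω' hω hω' e.1, e.1]

/-- The differences of two labels. -/
theorem dif_near (hI : Im K d D Q M N₀ δ q L T Z a E Pf c s ξ n P) {ω ω' : Ω}
    (h : tC K d D Q M c P (L ω) = tC K d D Q M c P (L ω')) {u : ℝ} (hu : |u| ≤ 1)
    (β : Gr K d) :
    |((P (L ω) β).eval u - (P (L ω) (fun _ => 0)).eval u) -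
      ((P (L ω') β).eval u - (P (L ω') (fun _ => 0)).eval u)| ≤ (D + 1) * (1 / 2 ^ M) := by
  have e1 : ((P (L ω) β).eval u - (P (L ω) (fun _ => 0)).eval u) -
      ((P (L ω') β).eval u - (P (L ω') (fun _ => 0)).eval u) =
      ((P (L ω) β - P (L ω) (fun _ => 0)) - (P (L ω') β - P (L ω') (fun _ => 0))).eval u := by
    simp only [Polynomial.eval_sub]
  rw [e1]
  have hd : ∀ l, (P l β - P l (fun _ => 0)).natDegree ≤ D := fun l =>
    (Polynomial.natDegree_sub_le _ _).trans (max_le (hI.deg _ _) (hI.deg _ _))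
  refine eval_le ((Polynomial.natDegree_sub_le _ _).trans (max_le (hd _) (hd _))) hu
    fun j hj => ?_
  simp only [Polynomial.coeff_sub]
  have h1 := (Prod.ext_iff.mp (Prod.ext_iff.mp h).2).1
  exact of_cell (congrFun (congrFun h1 β) (⟨j, by omega⟩ : Fin (D + 1)))

/-- The value at the corner, from the values at the nodes of the tube. -/
theorem cor_near (hT : TL K d D CM Q MB k N₀ δ q L T Z a E X Pf Pg c s ξ n Θ) {ω : Ω}
    (hω : 0 < q ω) {B : ℝ}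
    (hg : ∀ β : Gr K d, |vt K Z Pf s ω β - (P (L ω) β).eval (uu N₀ T ω)| ≤ B) :
    |eval (fun _ => 0) (Pf (Z ω)) - ((P (L ω) (fun _ => 0)).eval (uu N₀ T ω) +
      ∑ β : Gr K d, ell K β (fun i => 0 - s ω i) * ((P (L ω) β).eval (uu N₀ T ω) -
        (P (L ω) (fun _ => 0)).eval (uu N₀ T ω)))| ≤ iC K d * B := by
  have h1 := shift_eval hT.hK (Pf (Z ω)) (hT.dgf _) (s ω) (fun _ => 0)
  have h2 : (P (L ω) (fun _ => 0)).eval (uu N₀ T ω) +
      ∑ β : Gr K d, ell K β (fun i => 0 - s ω i) * ((P (L ω) β).eval (uu N₀ T ω) -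
        (P (L ω) (fun _ => 0)).eval (uu N₀ T ω)) =
      ∑ β : Gr K d, ell K β (fun i => 0 - s ω i) * (P (L ω) β).eval (uu N₀ T ω) := by
    have h3 : ∑ β : Gr K d, ell K β (fun i => 0 - s ω i) * ((P (L ω) β).eval (uu N₀ T ω) -
        (P (L ω) (fun _ => 0)).eval (uu N₀ T ω)) =
        ∑ β : Gr K d, ell K β (fun i => 0 - s ω i) * (P (L ω) β).eval (uu N₀ T ω) -
        (∑ β : Gr K d, ell K β (fun i => 0 - s ω i)) *
          (P (L ω) (fun _ => 0)).eval (uu N₀ T ω) := by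
      rw [Finset.sum_mul, ← Finset.sum_sub_distrib]
      exact Finset.sum_congr rfl fun β _ => by ring
    rw [h3, ell_one hT.hK]
    ring
  rw [h1, h2]
  refine ell_sum_near _ _ hg (fun i => ?_) (fun i => ?_)
  · have := abs_le.1 (hT.s1 ω hω i)
    linarith [this.2]
  · have := abs_le.1 (hT.s1 ω hω i)
    linarith [this.1]

/-- The bad event. -/
def bad (K : ℕ) {d : ℕ} (Q M N₀ : ℕ) (δ : ℝ) (L : Ω → Λ) (T : Ω → ℕ) (Z : Ω → ζ)
    (Pf : ζ → MvPolynomial (Fin d) ℝ) (s : Ω → Fin d → ℝ) (P : Λ → Gr K d → Polynomial ℝ)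
    (ω : Ω) : Prop :=
  ∃ β : Gr K d, 2 ^ (δ * Q) / 2 ^ M < |vt K Z Pf s ω β - (P (L ω) β).eval (uu N₀ T ω)|

/-- The value at the centre given the key. -/
theorem hgt_near (hT : TL K d D CM Q MB k N₀ δ q L T Z a E X Pf Pg c s ξ n Θ)
    (hI : Im K d D Q M N₀ δ q L T Z a E Pf c s ξ n P) {ω ω' : Ω} (hω : 0 < q ω) (hω' : 0 < q ω')
    (hb : ¬ bad K Q M N₀ δ L T Z Pf s P ω) (hb' : ¬ bad K Q M N₀ δ L T Z Pf s P ω')
    (he : tC K d D Q M c P (L ω) = tC K d D Q M c P (L ω'))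
    (hk : (E ω, Key M Z a Pf ω) = (E ω', Key M Z a Pf ω')) :
    |2 ^ M * (P (L ω) (fun _ => 0)).eval (uu N₀ T ω) -
      2 ^ M * (P (L ω') (fun _ => 0)).eval (uu N₀ T ω')| ≤
      1 + iC K d * (D + 1) + 2 * (iC K d * 2 ^ (δ * Q)) := by
  obtain ⟨e1, e2⟩ := Prod.ext_iff.mp hk
  simp only at e1 e2
  obtain ⟨e3, e4⟩ := Prod.ext_iff.mp e2
  have e3' : a ω = a ω' := e3
  have e4' : ⌊2 ^ M * eval (fun _ => 0) (Pf (Z ω))⌋ = ⌊2 ^ M * eval (fun _ => 0) (Pf (Z ω'))⌋ := e4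
  have eT : T ω = T ω' := hT.aT ω ω' hω hω' e3'
  have eu : uu N₀ T ω' = uu N₀ T ω := by
    unfold uu
    rw [eT]
  have es : s ω = s ω' := hT.sc ω ω' hω hω' (by
    show (c (L ω), (E ω, a ω)) = (c (L ω'), (E ω', a ω'))
    rw [e1, e3']
    exact Prod.ext (Prod.ext_iff.mp he).1 rfl)
  have h1 := cor_near hT hω (B := 2 ^ (δ * Q) / 2 ^ M) (fun β => not_lt.1 fun h => hb ⟨β, h⟩)
  have h2 := cor_near hT hω' (B := 2 ^ (δ * Q) / 2 ^ M) (fun β => not_lt.1 fun h => hb' ⟨β, h⟩)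
  rw [← es, eu] at h2
  rw [eu]
  have hu := hT.uu_abs hω
  have h3 := ell_sum_near (K := K) (d := d)
    (fun β => (P (L ω) β).eval (uu N₀ T ω) - (P (L ω) (fun _ => 0)).eval (uu N₀ T ω))
    (fun β => (P (L ω') β).eval (uu N₀ T ω) - (P (L ω') (fun _ => 0)).eval (uu N₀ T ω))
    (fun β => dif_near hI he hu β) (x := fun i => 0 - s ω i) (fun i => by
      have := abs_le.1 (hT.s1 ω hω i)
      linarith [this.2]) (fun i => by
      have := abs_le.1 (hT.s1 ω hω i)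
      linarith [this.1])
  have h4 := of_cell e4'
  have hp : (0 : ℝ) < 2 ^ M := by positivity
  obtain ⟨x, hx⟩ : ∃ x, x = (P (L ω) (fun _ => 0)).eval (uu N₀ T ω) := ⟨_, rfl⟩
  obtain ⟨x', hx'⟩ : ∃ x', x' = (P (L ω') (fun _ => 0)).eval (uu N₀ T ω) := ⟨_, rfl⟩
  obtain ⟨S, hS⟩ : ∃ S, S = ∑ β : Gr K d, ell K β (fun i => 0 - s ω i) *
    ((P (L ω) β).eval (uu N₀ T ω) - (P (L ω) (fun _ => 0)).eval (uu N₀ T ω)) := ⟨_, rfl⟩
  obtain ⟨S', hS'⟩ : ∃ S', S' = ∑ β : Gr K d, ell K β (fun i => 0 - s ω i) *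
    ((P (L ω') β).eval (uu N₀ T ω) - (P (L ω') (fun _ => 0)).eval (uu N₀ T ω)) := ⟨_, rfl⟩
  rw [← hS, ← hx] at h1
  rw [← hS', ← hx'] at h2
  rw [← hS, ← hS'] at h3
  rw [← hx, ← hx', ← mul_sub, abs_mul, abs_of_pos hp]
  have h5 : |x - x'| ≤ 1 / 2 ^ M + iC K d * ((D + 1) * (1 / 2 ^ M)) +
      2 * (iC K d * (2 ^ (δ * Q) / 2 ^ M)) := by
    rw [abs_le] at h1 h2 h3 h4 ⊢
    constructor <;> linarith [h1.1, h1.2, h2.1, h2.2, h3.1, h3.2, h4.1, h4.2]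
  calc 2 ^ M * |x - x'| ≤ 2 ^ M * (1 / 2 ^ M + iC K d * ((D + 1) * (1 / 2 ^ M)) +
        2 * (iC K d * (2 ^ (δ * Q) / 2 ^ M))) := mul_le_mul_of_nonneg_left h5 hp.le
    _ = _ := by
        field_simp

/-- The size of the value. -/
theorem val_size (hT : TL K d D CM Q MB k N₀ δ q L T Z a E X Pf Pg c s ξ n Θ)
    (hI : Im K d D Q M N₀ δ q L T Z a E Pf c s ξ n P) {ω : Ω} (hω : 0 < q ω) (β : Gr K d) :
    |(P (L ω) β).eval (uu N₀ T ω)| ≤ (D + 1) * 2 ^ (δ * Q) :=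
  eval_le (hI.deg _ _) (hT.uu_abs hω) fun j _ => hI.bd ω hω β j

theorem floor_size {x B : ℝ} (h : |x| ≤ B) : |((⌊x⌋ : ℤ) : ℝ)| ≤ B + 1 := by
  have h5 := Int.floor_le x
  have h6 := Int.lt_floor_add_one x
  rw [abs_le] at h ⊢
  constructor <;> linarith [h.1, h.2]

/-- **The value at the centre is few bits given the key.** -/
theorem hgt_few (hT : TL K d D CM Q MB k N₀ δ q L T Z a E X Pf Pg c s ξ n Θ)
    (hI : Im K d D Q M N₀ δ q L T Z a E Pf c s ξ n P) :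
    CH q (fun ω => ⌊2 ^ M * (P (L ω) (fun _ => 0)).eval (uu N₀ T ω)⌋)
      (fun ω => (E ω, Key M Z a Pf ω)) ≤ δ * Q + (Real.log 2 + (Real.log (2 *
        (1 + iC K d * (D + 1) + 2 * (iC K d * 2 ^ (δ * Q)) + 1) + 1) +
        δ * Real.log (4 * (2 ^ M * ((D + 1) * 2 ^ (δ * Q)) + 1) + 1))) := by
  have h0 := hT.law.nonneg
  have hiC := one_le_iC K d
  have h2p := hT.two1
  have h1 := CH_le_add h0 (fun ω (_ : Unit) => ⌊2 ^ M * (P (L ω) (fun _ => 0)).eval (uu N₀ T ω)⌋)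
    (fun ω => tC K d D Q M c P (L ω)) (fun ω => (E ω, Key M Z a Pf ω))
  have h2 := tC_few hT hI
  have h3 := CH_vecb hT.law
    (fun ω (_ : Unit) => ⌊2 ^ M * (P (L ω) (fun _ => 0)).eval (uu N₀ T ω)⌋)
    (fun ω => (tC K d D Q M c P (L ω), (E ω, Key M Z a Pf ω))) (bad K Q M N₀ δ L T Z Pf s P)
    (M := 2 ^ M * ((D + 1) * 2 ^ (δ * Q)) + 1)
    (D := 1 + iC K d * (D + 1) + 2 * (iC K d * 2 ^ (δ * Q)) + 1) hI.cls (by positivity)
    (by positivity)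
    (fun ω hω _ => floor_size (by
      rw [abs_mul, abs_of_pos (by positivity : (0 : ℝ) < 2 ^ M)]
      exact mul_le_mul_of_nonneg_left (val_size hT hI hω _) (by positivity)))
    (fun ω ω' hω hω' hb hb' e _ => by
      obtain ⟨e1, e2⟩ := Prod.ext_iff.mp e
      exact (floor_diff _ _).trans (add_le_add (hgt_near hT hI hω hω' hb hb' e1 e2) le_rfl))
  have h4 : (Fintype.card Unit : ℝ) = 1 := by simp
  rw [h4, one_mul] at h3
  have h5 : CH q (fun ω => ⌊2 ^ M * (P (L ω) (fun _ => 0)).eval (uu N₀ T ω)⌋)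
      (fun ω => (E ω, Key M Z a Pf ω)) ≤
      CH q (fun ω (_ : Unit) => ⌊2 ^ M * (P (L ω) (fun _ => 0)).eval (uu N₀ T ω)⌋)
      (fun ω => (E ω, Key M Z a Pf ω)) :=
    CH_mono_left h0 fun ω ω' _ _ e => congrFun (Prod.ext_iff.mp e).1 ()
  linarith

/-- The natural jets. -/
theorem nat_near {C : ℝ} (hC : ∀ (R : Polynomial ℝ) (j : ℕ) (u B : ℝ), R.natDegree ≤ D → |u| ≤ 1 →
      (∀ i, j ≤ i → |R.coeff i| ≤ B) → |(Polynomial.derivative^[j] R).eval u| ≤ C * B)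
    (hI : Im K d D Q M N₀ δ q L T Z a E Pf c s ξ n P) {ω ω' : Ω}
    (h : tC K d D Q M c P (L ω) = tC K d D Q M c P (L ω')) {u : ℝ} (hu : |u| ≤ 1) (j : ℕ) :
    |(Polynomial.derivative^[j] (P (L ω) (fun _ => 0))).eval u -
      (Polynomial.derivative^[j] (P (L ω') (fun _ => 0))).eval u| ≤ C * (1 / 2 ^ (M - Q)) := by
  rw [← Polynomial.eval_sub, ← Polynomial.iterate_derivative_sub]
  have hd : (P (L ω) (fun _ => 0) - P (L ω') (fun _ => 0)).natDegree ≤ D :=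
    (Polynomial.natDegree_sub_le _ _).trans (max_le (hI.deg _ _) (hI.deg _ _))
  refine hC _ j u _ hd hu fun i _ => ?_
  by_cases hi : i ≤ D
  · rw [Polynomial.coeff_sub]
    have h1 := (Prod.ext_iff.mp (Prod.ext_iff.mp h).2).2
    exact of_cell (congrFun h1 (⟨i, by omega⟩ : Fin (D + 1)))
  · rw [Polynomial.coeff_eq_zero_of_natDegree_lt (by omega), abs_zero]
    positivity

/-- **The value at the centre given the record**, on a part of the law. -/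
theorem ctr_few (hT : TL K d D CM Q MB k N₀ δ q L T Z a E X Pf Pg c s ξ n Θ)
    (hI : Im K d D Q M N₀ δ q L T Z a E Pf c s ξ n P) {q' : Ω → ℝ} (hq' : IsLaw q')
    (hpos : ∀ ω, 0 < q' ω → 0 < q ω) {η : ℝ} (hη : Pb q' (bad K Q M N₀ δ L T Z Pf s P) ≤ η)
    {γ : Type} (W : Ω → γ) {t : ℝ} (ht0 : 0 < t) (ht : t ≤ 2 ^ M) :
    CH q' (fun ω => ⌊t * (P (L ω) (fun _ => 0)).eval (uu N₀ T ω)⌋)
      (fun ω => (tC K d D Q M c P (L ω), (Z ω, (E ω, W ω)))) ≤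
      Real.log 2 + (Real.log (2 * (2 * 2 ^ (δ * Q) + 1) + 1) +
        η * Real.log (4 * (2 ^ M * ((D + 1) * 2 ^ (δ * Q)) + 1) + 1)) := by
  have h0 := hq'.nonneg
  have h2p := hT.two1
  have hp : (0 : ℝ) < 2 ^ M := by positivity
  have h3 := CH_vecb hq' (fun ω (_ : Unit) => ⌊t * (P (L ω) (fun _ => 0)).eval (uu N₀ T ω)⌋)
    (fun ω => (tC K d D Q M c P (L ω), (Z ω, (E ω, W ω)))) (bad K Q M N₀ δ L T Z Pf s P)
    (M := 2 ^ M * ((D + 1) * 2 ^ (δ * Q)) + 1)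
    (D := 2 * 2 ^ (δ * Q) + 1) hη (by positivity)
    (by positivity)
    (fun ω hω _ => floor_size (by
      rw [abs_mul, abs_of_pos ht0]
      exact mul_le_mul ht (val_size hT hI (hpos ω hω) _) (abs_nonneg _) hp.le))
    (fun ω ω' hω hω' hb hb' e _ => by
      simp only [Prod.mk.injEq] at e
      obtain ⟨e1, e2, e3, e4⟩ := e
      refine (floor_diff _ _).trans (add_le_add ?_ le_rfl)
      have ea : a ω = a ω' := hT.Za ω ω' (hpos ω hω) (hpos ω' hω') e2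
      have es : s ω = s ω' := hT.sc ω ω' (hpos ω hω) (hpos ω' hω') (by
        show (c (L ω), (E ω, a ω)) = (c (L ω'), (E ω', a ω'))
        rw [e3, ea]
        exact Prod.ext (Prod.ext_iff.mp e1).1 rfl)
      have ev : vt K Z Pf s ω (fun _ => 0) = vt K Z Pf s ω' (fun _ => 0) := by
        unfold vt
        rw [es, e2]
      have g1 : |vt K Z Pf s ω (fun _ => 0) - (P (L ω) (fun _ => 0)).eval (uu N₀ T ω)| ≤
        2 ^ (δ * Q) / 2 ^ M := not_lt.1 fun h => hb ⟨_, h⟩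
      have g2 : |vt K Z Pf s ω' (fun _ => 0) - (P (L ω') (fun _ => 0)).eval (uu N₀ T ω')| ≤
        2 ^ (δ * Q) / 2 ^ M := not_lt.1 fun h => hb' ⟨_, h⟩
      rw [← ev] at g2
      have g3 : |(P (L ω) (fun _ => 0)).eval (uu N₀ T ω) -
          (P (L ω') (fun _ => 0)).eval (uu N₀ T ω')| ≤ 2 * (2 ^ (δ * Q) / 2 ^ M) := by
        rw [abs_le] at g1 g2 ⊢
        constructor <;> linarith [g1.1, g1.2, g2.1, g2.2]
      rw [← mul_sub, abs_mul, abs_of_pos ht0]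
      calc t * _ ≤ 2 ^ M * (2 * (2 ^ (δ * Q) / 2 ^ M)) :=
            mul_le_mul ht g3 (abs_nonneg _) hp.le
        _ = _ := by field_simp)
  have h4 : (Fintype.card Unit : ℝ) = 1 := by simp
  rw [h4, one_mul] at h3
  have h5 : CH q' (fun ω => ⌊t * (P (L ω) (fun _ => 0)).eval (uu N₀ T ω)⌋)
      (fun ω => (tC K d D Q M c P (L ω), (Z ω, (E ω, W ω)))) ≤
      CH q' (fun ω (_ : Unit) => ⌊t * (P (L ω) (fun _ => 0)).eval (uu N₀ T ω)⌋)
      (fun ω => (tC K d D Q M c P (L ω), (Z ω, (E ω, W ω)))) :=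
    CH_mono_left h0 fun ω ω' _ _ e => congrFun (Prod.ext_iff.mp e).1 ()
  linarith

/-- Equal digits. -/
theorem of_xd (hT : TL K d D CM Q MB k N₀ δ q L T Z a E X Pf Pg c s ξ n Θ) {ω ω' : Ω}
    (h : xd k L ξ ω = xd k L ξ ω') (i : Fin d) : |ξ (L ω) i - ξ (L ω') i| ≤ 1 / 2 ^ k := by
  have h1 : ⌊2 ^ k * ξ (L ω) i⌋₊ = ⌊2 ^ k * ξ (L ω') i⌋₊ := congrFun h i
  have hp : (0 : ℝ) < 2 ^ k := by positivity
  have a1 := Nat.floor_le (mul_nonneg hp.le (hT.ξ0 (L ω) i))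
  have a2 := Nat.lt_floor_add_one (2 ^ k * ξ (L ω) i)
  have a3 := Nat.floor_le (mul_nonneg hp.le (hT.ξ0 (L ω') i))
  have a4 := Nat.lt_floor_add_one (2 ^ k * ξ (L ω') i)
  rw [h1] at a1 a2
  have a5 : |(ξ (L ω) i - ξ (L ω') i) * 2 ^ k| ≤ 1 := by
    rw [abs_le]
    constructor <;> nlinarith
  rw [abs_mul, abs_of_pos hp] at a5
  rwa [le_div_iff₀ hp]

/-- The number of digits. -/
theorem xd_cnt (hT : TL K d D CM Q MB k N₀ δ q L T Z a E X Pf Pg c s ξ n Θ) {q' : Ω → ℝ}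
    (hq' : IsLaw q') {γ : Type} (Y : Ω → γ) : CH q' (xd k L ξ) Y ≤ d * (k * Real.log 2) := by
  have h1 := CH_le_card hq'.nonneg hq'.sum_one (xd k L ξ) Y
    (fun _ => Fintype.piFinset fun _ : Fin d => range (2 ^ k)) (fun ω _ => by
      rw [Fintype.mem_piFinset]
      intro i
      rw [mem_range]
      unfold xd
      rw [Nat.floor_lt (mul_nonneg (by positivity) (hT.ξ0 _ i))]
      push_cast
      have h2 := hT.ξ1 (L ω) i
      have hp : (0 : ℝ) < 2 ^ k := by positivity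
      nlinarith)
  refine h1.trans (le_of_eq ?_)
  rw [Ex_const hq'.sum_one, Fintype.card_piFinset]
  simp only [card_range, prod_const, card_univ, Fintype.card_fin]
  push_cast
  rw [Real.log_pow, Real.log_pow]

/-- The constant of the relation. -/
noncomputable def cR (K d D : ℕ) : ℝ :=
  iC K d * (D + 1) + (K + 1) ^ d * (d * K ^ 2 * lgC K ^ (d + 1)) * (2 * (D + 1))

theorem cR_nonneg (K d D : ℕ) : 0 ≤ cR K d D := by
  have h1 := one_le_iC K d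
  have h2 := one_le_lgC K
  unfold cR
  positivity

/-- **The own path against the value at the centre.** -/
theorem own_near (hT : TL K d D CM Q MB k N₀ δ q L T Z a E X Pf Pg c s ξ n Θ)
    (hI : Im K d D Q M N₀ δ q L T Z a E Pf c s ξ n P) (hM : M ≤ MB) {ω ω' : Ω} (hω : 0 < q ω)
    (hω' : 0 < q ω') (hx : xd k L ξ ω = xd k L ξ ω')
    (he : tC K d D Q M c P (L ω) = tC K d D Q M c P (L ω')) (hTT : T ω = T ω') :
    |((P (L ω) (fun _ => 0)).eval (uu N₀ T ω) - (P (L ω') (fun _ => 0)).eval (uu N₀ T ω')) -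
      ((n (L ω)).eval (uu N₀ T ω) - (n (L ω')).eval (uu N₀ T ω'))| ≤
      cR K d D * 2 ^ (δ * Q) * (1 / 2 ^ M) := by
  have eu : uu N₀ T ω' = uu N₀ T ω := by
    unfold uu
    rw [hTT]
  have h2p := hT.two1
  have hp : (0 : ℝ) < 2 ^ M := by positivity
  have hlg := one_le_lgC K
  have hiC := one_le_iC K d
  have hv' : ∀ β : Gr K d, |(P (L ω') β).eval (uu N₀ T ω)| ≤ (D + 1) * 2 ^ (δ * Q) := by
    intro β
    rw [← eu]
    exact val_size hT hI hω' β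
  rw [eu]
  have hu := hT.uu_abs hω
  obtain ⟨u, hu'⟩ : ∃ u, u = uu N₀ T ω := ⟨_, rfl⟩
  rw [← hu'] at hu hv' ⊢
  have hn : ∀ l, (n l).eval u - (P l (fun _ => 0)).eval u =
      ∑ β : Gr K d, ell K β (ξ l) * ((P l β).eval u - (P l (fun _ => 0)).eval u) := by
    intro l
    have e1 : (n l).eval u = ∑ β : Gr K d, ell K β (ξ l) * (P l β).eval u := by
      rw [← hI.own l, Polynomial.eval_finsetSum]
      exact Finset.sum_congr rfl fun β _ => by rw [Polynomial.eval_mul, Polynomial.eval_C]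
    have e2 : ∑ β : Gr K d, ell K β (ξ l) * ((P l β).eval u - (P l (fun _ => 0)).eval u) =
        ∑ β : Gr K d, ell K β (ξ l) * (P l β).eval u -
          (∑ β : Gr K d, ell K β (ξ l)) * (P l (fun _ => 0)).eval u := by
      rw [Finset.sum_mul, ← Finset.sum_sub_distrib]
      exact Finset.sum_congr rfl fun β _ => by ring
    rw [e1, e2, ell_one hT.hK, one_mul]
  obtain ⟨Δ, hΔ⟩ : ∃ Δ : Λ → Gr K d → ℝ, Δ = fun l β =>
    (P l β).eval u - (P l (fun _ => 0)).eval u := ⟨_, rfl⟩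
  have hn' : ∀ l, (n l).eval u - (P l (fun _ => 0)).eval u =
      ∑ β : Gr K d, ell K β (ξ l) * Δ l β := fun l => by rw [hn l, hΔ]
  have b0 : ∀ l i, -1 ≤ ξ l i := fun l i => by linarith [hT.ξ0 l i]
  have b1 : ∀ l i, ξ l i ≤ 2 := fun l i => by linarith [hT.ξ1 l i]
  have h1 : |∑ β : Gr K d, ell K β (ξ (L ω)) * Δ (L ω) β -
      ∑ β : Gr K d, ell K β (ξ (L ω)) * Δ (L ω') β| ≤ iC K d * ((D + 1) * (1 / 2 ^ M)) :=
    ell_sum_near _ _ (fun β => by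
      rw [hΔ]
      exact dif_near hI he hu β) (b0 _) (b1 _)
  have h2 : |∑ β : Gr K d, ell K β (ξ (L ω)) * Δ (L ω') β -
      ∑ β : Gr K d, ell K β (ξ (L ω')) * Δ (L ω') β| ≤
      (K + 1) ^ d * (d * K ^ 2 * lgC K ^ (d + 1) * (1 / 2 ^ k)) *
        (2 * (D + 1) * 2 ^ (δ * Q)) := by
    rw [← Finset.sum_sub_distrib]
    refine (Finset.abs_sum_le_sum_abs _ _).trans ?_
    have h3 : ∀ β ∈ (univ : Finset (Gr K d)),
        |ell K β (ξ (L ω)) * Δ (L ω') β - ell K β (ξ (L ω')) * Δ (L ω') β| ≤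
        d * K ^ 2 * lgC K ^ (d + 1) * (1 / 2 ^ k) * (2 * (D + 1) * 2 ^ (δ * Q)) := by
      intro β _
      rw [← sub_mul, abs_mul]
      have h4 := ell_lip β (b0 (L ω)) (b1 (L ω)) (b0 (L ω')) (b1 (L ω'))
        (by positivity : (0 : ℝ) ≤ 1 / 2 ^ k) (of_xd hT hx)
      have h5 : |Δ (L ω') β| ≤ 2 * (D + 1) * 2 ^ (δ * Q) := by
        rw [hΔ]
        have g1 := hv' β
        have g2 := hv' (fun _ => 0)
        have g3 := abs_sub ((P (L ω') β).eval u) ((P (L ω') (fun _ => 0)).eval u)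
        show |(P (L ω') β).eval u - (P (L ω') (fun _ => 0)).eval u| ≤ _
        linarith
      exact mul_le_mul h4 h5 (abs_nonneg _) (by positivity)
    refine (Finset.sum_le_sum h3).trans (le_of_eq ?_)
    rw [Finset.sum_const, Finset.card_univ, card_grid, nsmul_eq_mul]
    push_cast
    ring
  have hkM : (1 : ℝ) / 2 ^ k ≤ 1 / 2 ^ M :=
    one_div_le_one_div_of_le hp (pow_le_pow_right₀ (by norm_num) (hM.trans hT.hk))
  have h6 : (K + 1) ^ d * (d * K ^ 2 * lgC K ^ (d + 1) * (1 / 2 ^ k)) *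
        (2 * (D + 1) * 2 ^ (δ * Q)) ≤
      (K + 1) ^ d * (d * K ^ 2 * lgC K ^ (d + 1) * (1 / 2 ^ M)) *
        (2 * (D + 1) * (2 : ℝ) ^ (δ * Q)) := by gcongr
  have h7 : iC K d * ((D + 1) * (1 / 2 ^ M)) ≤
      iC K d * ((D + 1) * (1 / 2 ^ M)) * (2 : ℝ) ^ (δ * Q) :=
    le_mul_of_one_le_right (by positivity) h2p
  have e9 : ((P (L ω) (fun _ => 0)).eval u - (P (L ω') (fun _ => 0)).eval u) -
      ((n (L ω)).eval u - (n (L ω')).eval u) =
      -((∑ β : Gr K d, ell K β (ξ (L ω)) * Δ (L ω) β -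
        ∑ β : Gr K d, ell K β (ξ (L ω)) * Δ (L ω') β) +
      (∑ β : Gr K d, ell K β (ξ (L ω)) * Δ (L ω') β -
        ∑ β : Gr K d, ell K β (ξ (L ω')) * Δ (L ω') β)) := by
    have g1 := hn' (L ω)
    have g2 := hn' (L ω')
    linarith
  rw [e9, abs_neg]
  refine (abs_add_le _ _).trans ?_
  have e10 : cR K d D * 2 ^ (δ * Q) * (1 / 2 ^ M) =
      iC K d * ((D + 1) * (1 / 2 ^ M)) * (2 : ℝ) ^ (δ * Q) +
      (K + 1) ^ d * (d * K ^ 2 * lgC K ^ (d + 1) * (1 / 2 ^ M)) *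
        (2 * (D + 1) * (2 : ℝ) ^ (δ * Q)) := by
    unfold cR
    ring
  rw [e10]
  linarith

/-- **The rows of the value at the centre**, on a part of the law. -/
theorem row_ctr (hT : TL K d D CM Q MB k N₀ δ q L T Z a E X Pf Pg c s ξ n Θ)
    (hI : Im K d D Q M N₀ δ q L T Z a E Pf c s ξ n P) (hM : M ≤ MB) {q' : Ω → ℝ}
    (hq' : IsLaw q') (hpos : ∀ ω, 0 < q' ω → 0 < q ω) {η : ℝ}
    (hη : Pb q' (bad K Q M N₀ δ L T Z Pf s P) ≤ η) {γ β : Type} (W : Ω → γ) (b : Ω → β)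
    (hWT : Det q W T)
    (hb : Det q (fun ω => (xd k L ξ ω, (c (L ω), W ω))) b) {t t' : ℝ} (ht' : 0 < t')
    (htt : t' ≤ t) (ht : t ≤ 2 ^ M) {R e e₁ : ℝ}
    (hnf : CH q' (fun ω => ⌊t * (n (L ω)).eval (uu N₀ T ω)⌋)
      (fun ω => (⌊t' * (n (L ω)).eval (uu N₀ T ω)⌋, (b ω, W ω))) ≤ R)
    (hfull : d * (k * Real.log 2) - e ≤ CH q' (xd k L ξ) (fun ω => (Z ω, (E ω, W ω))))
    (hc : CH q' (fun ω => tC K d D Q M c P (L ω)) (fun ω => (Z ω, (E ω, W ω))) ≤ e₁) :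
    CH q' (fun ω => ⌊t * (P (L ω) (fun _ => 0)).eval (uu N₀ T ω)⌋)
      (fun ω => (⌊t' * (P (L ω) (fun _ => 0)).eval (uu N₀ T ω)⌋,
        (tC K d D Q M c P (L ω), W ω))) ≤
      R + e + e₁ + (Real.log 2 + (Real.log (2 * (2 * 2 ^ (δ * Q) + 1) + 1) +
        η * Real.log (4 * (2 ^ M * ((D + 1) * 2 ^ (δ * Q)) + 1) + 1))) +
      (Real.log 5 + 2 * Real.log (2 * ((⌈cR K d D * 2 ^ (δ * Q)⌉₊ + 1 + 1 : ℕ) : ℝ) + 1)) := by
  have ht0 : 0 < t := ht'.trans_le htt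
  have hp : (0 : ℝ) < 2 ^ M := by positivity
  refine Pool.OWN68.rows_ctr hq' (fun ω => (P (L ω) (fun _ => 0)).eval (uu N₀ T ω))
    (fun ω => (n (L ω)).eval (uu N₀ T ω)) (fun ω => tC K d D Q M c P (L ω)) Z (xd k L ξ) E W b
    ht' htt (D := ⌈cR K d D * 2 ^ (δ * Q)⌉₊) ?_ ?_ hnf hfull (xd_cnt hT hq' _) hc
    (ctr_few hT hI hq' hpos hη W ht0 ht)
  · intro ω ω' hω hω' e1 e2 e3
    have h1 := own_near hT hI hM (hpos ω hω) (hpos ω' hω') e1 e2
      (hWT ω ω' (hpos ω hω) (hpos ω' hω') e3)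
    rw [abs_mul, abs_of_pos ht0]
    have h2 : t * (cR K d D * 2 ^ (δ * Q) * (1 / 2 ^ M)) ≤ cR K d D * 2 ^ (δ * Q) := by
      have h3 : 0 ≤ cR K d D * 2 ^ (δ * Q) := mul_nonneg (cR_nonneg K d D) (by positivity)
      have h4 : t * (1 / 2 ^ M) ≤ 1 := by
        rw [mul_one_div, div_le_one hp]
        exact ht
      calc t * (cR K d D * 2 ^ (δ * Q) * (1 / 2 ^ M)) =
            cR K d D * 2 ^ (δ * Q) * (t * (1 / 2 ^ M)) := by ring
        _ ≤ cR K d D * 2 ^ (δ * Q) * 1 := mul_le_mul_of_nonneg_left h4 h3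
        _ = _ := mul_one _
    exact (mul_le_mul_of_nonneg_left h1 ht0.le).trans (h2.trans (Nat.le_ceil _))
  · intro ω ω' hω hω' e1 e2 e3
    refine hb ω ω' (hpos ω hω) (hpos ω' hω') ?_
    show (xd k L ξ ω, (c (L ω), W ω)) = (xd k L ξ ω', (c (L ω'), W ω'))
    rw [e1, e3]
    exact Prod.ext rfl (Prod.ext (Prod.ext_iff.mp e2).1 rfl)

end law

end Pool.V1E
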