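import Pool.Agent.H71.TUBE.Ctr
import Pool.Agent.H18.D2.Aj
import Pool.Agent.H83.OWN.AddC

/-!
# V1 empty: all jets of the centre of the tube

`jets_fam`: on the lines of a family, the jets of the centre of the tube are few bits given the key,
if the rows of the own path are not full.
-/

set_option autoImplicit false

namespace Pool.V1E

open Finset Real
open Pool.Agent.H49.Ent Pool.Agent.H32.Dense Pool.STK Pool.KA Pool.KSAT Pool.K2S Pool.GEN
open Pool.OWN68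
open Pool.BFL (Pb)
open Pool.D2G30
open MvPolynomial (eval pderiv)

section fam

variable {m J : ℕ}

/-- The path at the centre of the tube, in units of the last digit. -/
noncomputable def Rc {F : Fam m J} {K d : ℕ} (M : ℕ) (P : LnT F → Gr K d → Polynomial ℝ)
    (x : LnT F) : Polynomial ℝ :=
  Polynomial.C (2 ^ M) * (P x (fun _ => 0)).comp
    (Polynomial.C (1 / 2) * Polynomial.X + Polynomial.C (1 / 2))

/-- The time in the window. -/
def Tm (F : Fam m J) (W : ℕ) (ω : F.Ω) : ℕ := F.T ω % 2 ^ (J - W)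

theorem uu_uw (F : Fam m J) (W : ℕ) (ω : F.Ω) :
    1 / 2 * uw F W ω + 1 / 2 = uu (2 ^ (J - W)) (Tm F W) ω := by
  have e : ((tw F W ω : ℤ) : ℝ) = 2 * ((F.T ω % 2 ^ (J - W) : ℕ) : ℝ) -
      ((2 ^ (J - W) : ℕ) : ℝ) := by
    unfold tw
    generalize F.T ω % 2 ^ (J - W) = r
    push_cast
    ring
  unfold uw uu Tm
  rw [e]
  generalize F.T ω % 2 ^ (J - W) = r
  have p1 : (0 : ℝ) < ((2 ^ (J - W) : ℕ) : ℝ) := by positivity
  field_simp
  ring

theorem pj_Rc {F : Fam m J} {K d : ℕ} (M : ℕ) (P : LnT F → Gr K d → Polynomial ℝ) (W j : ℕ)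
    (ω : F.Ω) : pj F (Rc M P) W j ω = 2 ^ M * ((1 / 2) ^ j *
      (Polynomial.derivative^[j] (P (slam F W ω) (fun _ => 0))).eval
        (uu (2 ^ (J - W)) (Tm F W) ω)) := by
  unfold pj Rc
  rw [Polynomial.iterate_derivative_C_mul, Polynomial.eval_mul, Polynomial.eval_C,
    Pool.AJ18.der_aff, Polynomial.eval_mul, Polynomial.eval_C, Polynomial.eval_comp]
  simp only [Polynomial.eval_add, Polynomial.eval_mul, Polynomial.eval_C, Polynomial.eval_X]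
  rw [uu_uw]

theorem deg_Rc {F : Fam m J} {K d D : ℕ} (M : ℕ) {P : LnT F → Gr K d → Polynomial ℝ}
    (hP : ∀ x β, (P x β).natDegree ≤ D) (x : LnT F) : (Rc M P x).natDegree ≤ D := by
  unfold Rc
  refine (Polynomial.natDegree_C_mul_le _ _).trans (Polynomial.natDegree_comp_le.trans ?_)
  have h1 : (Polynomial.C (1 / 2) * Polynomial.X + Polynomial.C (1 / 2) :
      Polynomial ℝ).natDegree ≤ 1 := Polynomial.natDegree_linear_le
  calc _ ≤ D * 1 := Nat.mul_le_mul (hP _ _) h1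
    _ = D := mul_one D

/-- The event without the samples of probability zero. -/
theorem Pe_pos {Ω : Type} [Fintype Ω] {p : Ω → ℝ} (hp : ∀ ω, 0 ≤ p ω) (A : Ω → Prop) :
    Pe p (fun ω => A ω ∧ 0 < p ω) = Pe p A := by
  classical
  unfold Pe law
  refine Finset.sum_congr rfl fun ω _ => ?_
  rcases (hp ω).eq_or_lt with h | h
  · rw [← h]
    simp
  · by_cases hA : A ω
    · rw [if_pos (by simp [hA, h]), if_pos (by simp [hA])]
    · rw [if_neg (by simp [hA]), if_neg (by simp [hA])]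

theorem cond_pos {Ω : Type} [Fintype Ω] {p : Ω → ℝ} (hp : ∀ ω, 0 ≤ p ω) (A : Ω → Prop) :
    Pool.Agent.H49.Ent.cond p (fun ω => A ω ∧ 0 < p ω) True =
      Pool.Agent.H49.Ent.cond p A True := by
  classical
  have e : law p (fun ω => A ω ∧ 0 < p ω) True = law p A True := Pe_pos hp A
  funext ω
  unfold Pool.Agent.H49.Ent.cond
  rw [e]
  rcases (hp ω).eq_or_lt with h | h
  · rw [← h]
    simp
  · by_cases hA : A ω
    · rw [if_pos (by simp [hA, h]), if_pos (by simp [hA])]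
    · rw [if_neg (by simp [hA]), if_neg (by simp [hA])]

/-- The probability of an event on a large part. -/
theorem Pb_part {Ω : Type} [Fintype Ω] {p : Ω → ℝ} (hp : IsLaw p) {A B : Ω → Prop}
    (hs : Sub B A) (hA : 0 < Pe p A) {c₀ : ℝ} (hc₀ : 0 < c₀) (hB : c₀ * Pe p A ≤ Pe p B)
    (G : Ω → Prop) {e : ℝ} (h : Pb (Pool.Agent.H49.Ent.cond p A True) G ≤ e) :
    Pb (Pool.Agent.H49.Ent.cond p B True) G ≤ e / c₀ := by
  have hBp : 0 < Pe p B := lt_of_lt_of_le (mul_pos hc₀ hA) hB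
  have e1 : Pb (Pool.Agent.H49.Ent.cond p A True) G = Pe p (fun ω => A ω ∧ G ω) / Pe p A := by
    rw [← Pb_law]
    exact Pe_cond G
  have e2 : Pb (Pool.Agent.H49.Ent.cond p B True) G = Pe p (fun ω => B ω ∧ G ω) / Pe p B := by
    rw [← Pb_law]
    exact Pe_cond G
  rw [e1, div_le_iff₀ hA] at h
  rw [e2, div_le_iff₀ hBp]
  have h1 : Pe p (fun ω => B ω ∧ G ω) ≤ Pe p (fun ω => A ω ∧ G ω) :=
    Pe_mono hp fun ω hω => ⟨hs ω hω.1, hω.2⟩
  have he : 0 ≤ e := by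
    by_contra hcon
    have := Pe_nonneg hp (fun ω => A ω ∧ G ω)
    nlinarith
  calc Pe p (fun ω => B ω ∧ G ω) ≤ e * Pe p A := h1.trans h
    _ = e / c₀ * (c₀ * Pe p A) := by field_simp
    _ ≤ e / c₀ * Pe p B := mul_le_mul_of_nonneg_left hB (by positivity)

/-! ### Numbers -/

theorem log_c {C x y : ℝ} (hC : 1 ≤ C) (hy : 0 ≤ y) (hx : 0 < x) (h : x ≤ C * 2 ^ y) :
    Real.log x ≤ Real.log C + y := by
  have h1 := Real.log_le_log hx h
  have h2 : (0 : ℝ) < 2 ^ y := Real.rpow_pos_of_pos (by norm_num) _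
  rw [Real.log_mul (by linarith) h2.ne', Real.log_rpow (by norm_num)] at h1
  have h3 : Real.log 2 ≤ 1 := by
    have := Real.log_two_lt_d9
    linarith
  have h4 := mul_le_mul_of_nonneg_left h3 hy
  linarith

/-- The constants. -/
noncomputable def C₁ (K d D : ℕ) : ℝ := 5 + 2 * (iC K d * (D + 1)) + 4 * iC K d

/-- The constants. -/
noncomputable def C₂ (D : ℕ) : ℝ := 4 * (D + 1) + 5

/-- The constants. -/
noncomputable def C₃ (K d D : ℕ) : ℝ := 2 * cR K d D + 7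

theorem one_le_C₁ (K d D : ℕ) : 1 ≤ C₁ K d D := by
  have h1 := one_le_iC K d
  have h2 : 0 ≤ iC K d * (D + 1) := by positivity
  unfold C₁
  linarith

theorem one_le_C₂ (D : ℕ) : 1 ≤ C₂ D := by
  have : (0 : ℝ) ≤ D := Nat.cast_nonneg D
  unfold C₂
  linarith

theorem one_le_C₃ (K d D : ℕ) : 1 ≤ C₃ K d D := by
  have := cR_nonneg K d D
  unfold C₃
  linarith

theorem num (K d D M Q : ℕ) {δ : ℝ} (hδ : 0 ≤ δ * Q) :
    Real.log (2 * (1 + iC K d * (D + 1) + 2 * (iC K d * 2 ^ (δ * Q)) + 1) + 1) ≤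
      Real.log (C₁ K d D) + δ * Q ∧
    Real.log (4 * (2 ^ M * ((D + 1) * 2 ^ (δ * Q)) + 1) + 1) ≤
      Real.log (C₂ D) + (M + δ * Q) ∧
    Real.log (2 * (2 * 2 ^ (δ * Q) + 1) + 1) ≤ Real.log 7 + δ * Q ∧
    Real.log (2 * ((⌈cR K d D * 2 ^ (δ * Q)⌉₊ + 1 + 1 : ℕ) : ℝ) + 1) ≤
      Real.log (C₃ K d D) + δ * Q := by
  have h1 := one_le_iC K d
  have h2 : (1 : ℝ) ≤ 2 ^ (δ * Q) := Real.one_le_rpow (by norm_num) hδ
  have h3 : 0 ≤ iC K d * (D + 1) := by positivity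
  have h4 := cR_nonneg K d D
  have hM : (0 : ℝ) ≤ M := Nat.cast_nonneg M
  have hD : (0 : ℝ) ≤ D := Nat.cast_nonneg D
  refine ⟨log_c (one_le_C₁ K d D) hδ (by positivity) ?_, log_c (one_le_C₂ D) (by linarith)
    (by positivity) ?_, log_c (by norm_num) hδ (by positivity) ?_,
    log_c (one_le_C₃ K d D) hδ (by positivity) ?_⟩
  · unfold C₁
    nlinarith
  · rw [Real.rpow_add (by norm_num), Real.rpow_natCast]
    have h5 : (1 : ℝ) ≤ 2 ^ M := one_le_pow₀ (by norm_num)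
    have h6 : 1 ≤ (2 : ℝ) ^ M * 2 ^ (δ * Q) := one_le_mul_of_one_le_of_one_le h5 h2
    unfold C₂
    nlinarith
  · linarith
  · have h5 := Nat.ceil_lt_add_one (mul_nonneg h4 (by positivity : (0 : ℝ) ≤ 2 ^ (δ * Q)))
    push_cast
    unfold C₃
    nlinarith

/-! ### The hypotheses of the law on the jets -/

section hyp

variable {K d D CM MB k M Q W : ℕ} {δ δ₀ μ : ℝ} {F : Fam m J} {A : F.Ω → Prop}
  {ζ α ε κ β : Type} {Z : F.Ω → ζ} {a : F.Ω → α} {E : F.Ω → ε} {X : ε → Fin (d + 1) → ℝ}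
  {Pf : ζ → MvPolynomial (Fin d) ℝ} {Pg : ζ → Fin (d + 1) → MvPolynomial (Fin d) ℝ}
  {c : LnT F → κ} {s : F.Ω → Fin d → ℝ} {ξ : LnT F → Fin d → ℝ} {n : LnT F → Polynomial ℝ}
  {Θ : LnT F → Fin d → Polynomial ℝ} {P : LnT F → Gr K d → Polynomial ℝ} {b : F.Ω → β}

theorem ajh {C : ℝ} (hC1 : 1 ≤ C)
    (hC : ∀ (R : Polynomial ℝ) (j : ℕ) (u B : ℝ), R.natDegree ≤ D → |u| ≤ 1 →
      (∀ i, j ≤ i → |R.coeff i| ≤ B) → |(Polynomial.derivative^[j] R).eval u| ≤ C * B)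
    (hA : 0 < Pe F.p A) (hδ1 : δ ≤ 1) (hμ : 0 < μ) (hQμ : (Q : ℝ) ≤ μ * J)
    (hQM : Q ≤ M) (hM : M ≤ MB)
    (hT : TL K d D CM Q MB k (2 ^ (J - W)) δ (Pool.Agent.H49.Ent.cond F.p A True) (slam F W)
      (Tm F W) Z a E X Pf Pg c s ξ n Θ)
    (hI : Im K d D Q M (2 ^ (J - W)) δ (Pool.Agent.H49.Ent.cond F.p A True) (slam F W)
      (Tm F W) Z a E Pf c s ξ n P)
    (htim : (J : ℝ) * Real.log 2 - δ * μ * J ≤
      CH (Pool.Agent.H49.Ent.cond F.p A True) F.T (fun ω => (F.l ω, F.Z ω)))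
    (hkey : Det (Pool.Agent.H49.Ent.cond F.p A True) a F.W)
    (h1 : δ * (CM + 5) ≤ δ₀ / 2)
    (h2 : Real.log 2 + Real.log (C₁ K d D) + Real.log (C₂ D) +
      Real.log (2 * ((⌈C⌉₊ + 1 : ℕ) : ℝ) + 1) ≤ δ₀ / 2 * (μ * J)) :
    Pool.AJ18.AjH F (fun ω => A ω ∧ 0 < F.p ω) (Rc M P) (tC K d D Q M c P)
      (fun ω => (E ω, Key M Z a Pf ω)) (D + 1) W μ δ₀ := by
  obtain ⟨q, hq⟩ : ∃ q, q = Pool.Agent.H49.Ent.cond F.p A True := ⟨_, rfl⟩
  have hqA : Pool.Agent.H49.Ent.cond F.p (fun ω => A ω ∧ 0 < F.p ω) True = q := by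
    rw [hq]
    exact cond_pos F.isLaw.nonneg A
  rw [← hq] at hT hI htim hkey
  have hq0 := hT.law.nonneg
  have hqpos : ∀ ω, (A ω ∧ 0 < F.p ω) → 0 < q ω := by
    intro ω hω
    rw [hq]
    unfold Pool.Agent.H49.Ent.cond
    rw [if_pos (eq_true hω.1)]
    exact div_pos hω.2 hA
  have hδ0 := hT.δ0
  have hJ0 : (0 : ℝ) ≤ J := Nat.cast_nonneg J
  have hx0 : 0 ≤ μ * J := by positivity
  have hδQ : δ * Q ≤ δ * (μ * J) := mul_le_mul_of_nonneg_left hQμ hδ0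
  have hMx : (M : ℝ) ≤ CM * (μ * J) := by
    have g1 : (M : ℝ) ≤ CM * Q := by exact_mod_cast hM.trans hT.hMB
    exact g1.trans (mul_le_mul_of_nonneg_left hQμ (Nat.cast_nonneg _))
  have hCM : (0 : ℝ) ≤ CM := Nat.cast_nonneg _
  obtain ⟨n1, n2, n3, n4⟩ := num K d D M Q hT.Q0
  have l1 : 0 ≤ Real.log (C₁ K d D) := Real.log_nonneg (one_le_C₁ K d D)
  have l2 : 0 ≤ Real.log (C₂ D) := Real.log_nonneg (one_le_C₂ D)
  have l3 : 0 ≤ Real.log 2 := Real.log_nonneg (by norm_num)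
  have l4 : 0 ≤ Real.log (2 * ((⌈C⌉₊ + 1 : ℕ) : ℝ) + 1) := Real.log_nonneg (by
    have : (0 : ℝ) ≤ ((⌈C⌉₊ + 1 : ℕ) : ℝ) := Nat.cast_nonneg _
    linarith)
  have hδx : 0 ≤ δ * (μ * J) := mul_nonneg hδ0 hx0
  have hmain : δ * (CM + 5) * (μ * J) ≤ δ₀ / 2 * (μ * J) := mul_le_mul_of_nonneg_right h1 hx0
  have hCMx : 0 ≤ δ * CM * (μ * J) := by positivity
  have ee : δ * (CM + 5) * (μ * J) = δ * CM * (μ * J) + 5 * (δ * (μ * J)) := by ring
  have eJ : ∀ t : ℝ, t * μ * J = t * (μ * J) := fun t => by ring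
  have hδδ : δ * (μ * J) ≤ δ₀ * (μ * J) := by linarith
  refine ⟨fun x => (deg_Rc M hI.deg x).trans (Nat.le_succ D), ?_, ?_, ?_, ?_, ?_⟩
  · rw [hqA]
    rw [eJ] at htim ⊢
    linarith
  · intro ω ω' hω hω' e
    have e3 : a ω = a ω' := (Prod.ext_iff.mp (Prod.ext_iff.mp e).2).1
    have e4 := hkey ω ω' (hqpos ω hω) (hqpos ω' hω') e3
    exact Prod.ext_iff.mp e4
  · rw [hqA, eJ]
    exact (tC_few hT hI).trans (hδQ.trans hδδ)
  · rw [hqA, eJ]
    have e5 : (fun ω => ⌊pj F (Rc M P) W 0 ω⌋) = fun ω => ⌊2 ^ M *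
        (P (slam F W ω) (fun _ => 0)).eval (uu (2 ^ (J - W)) (Tm F W) ω)⌋ := by
      funext ω
      rw [pj_Rc, pow_zero, one_mul, Function.iterate_zero, id]
    rw [e5]
    refine (hgt_few hT hI).trans ?_
    have g1 := mul_le_mul_of_nonneg_left n2 hδ0
    have g2 : δ * (Real.log (C₂ D) + (M + δ * Q)) ≤
        Real.log (C₂ D) + δ * CM * (μ * J) + δ * (μ * J) := by
      have g3 : δ * Real.log (C₂ D) ≤ Real.log (C₂ D) := mul_le_of_le_one_left l2 hδ1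
      have g4 : δ * M ≤ δ * CM * (μ * J) := by
        calc δ * M ≤ δ * (CM * (μ * J)) := mul_le_mul_of_nonneg_left hMx hδ0
          _ = _ := by ring
      have g5 : δ * (δ * Q) ≤ δ * (μ * J) :=
        (mul_le_of_le_one_left hT.Q0 hδ1).trans hδQ
      linarith
    linarith
  · intro j hj hj0
    rw [hqA, eJ]
    have s1 := CH_le_add hq0 (fun ω => ⌊pj F (Rc M P) W j ω / 2 ^ (μ * J)⌋)
      (fun ω => tC K d D Q M c P (slam F W ω)) (fun ω => (E ω, Key M Z a Pf ω))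
    have s2 := tC_few hT hI
    have s3 : CH q (fun ω => ⌊pj F (Rc M P) W j ω / 2 ^ (μ * J)⌋)
        (fun ω => (tC K d D Q M c P (slam F W ω), (E ω, Key M Z a Pf ω))) ≤
        Real.log (2 * ((⌈C⌉₊ + 1 : ℕ) : ℝ) + 1) := by
      refine CH_pair hT.law _ _ fun ω ω' hω hω' e => ?_
      obtain ⟨e1, e2⟩ := Prod.ext_iff.mp e
      have e3 : a ω = a ω' := (Prod.ext_iff.mp (Prod.ext_iff.mp e2).2).1
      have eT : Tm F W ω = Tm F W ω' := hT.aT ω ω' hω hω' e3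
      have eu : uu (2 ^ (J - W)) (Tm F W) ω' = uu (2 ^ (J - W)) (Tm F W) ω := by
        unfold uu
        rw [eT]
      refine floor_sub_le ?_
      have p1 : (0 : ℝ) < 2 ^ (μ * J) := Real.rpow_pos_of_pos (by norm_num) _
      rw [← sub_div, abs_div, abs_of_pos p1, div_le_iff₀ p1, pj_Rc, pj_Rc, eu]
      have g1 := nat_near hC hI e1 (hT.uu_abs hω) j
      have g2 : (2 : ℝ) ^ M * ((1 / 2) ^ j * (Polynomial.derivative^[j]
          (P (slam F W ω) (fun _ => 0))).eval (uu (2 ^ (J - W)) (Tm F W) ω)) -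
          2 ^ M * ((1 / 2) ^ j * (Polynomial.derivative^[j]
          (P (slam F W ω') (fun _ => 0))).eval (uu (2 ^ (J - W)) (Tm F W) ω)) =
          2 ^ M * ((1 / 2) ^ j * ((Polynomial.derivative^[j]
          (P (slam F W ω) (fun _ => 0))).eval (uu (2 ^ (J - W)) (Tm F W) ω) -
          (Polynomial.derivative^[j]
          (P (slam F W ω') (fun _ => 0))).eval (uu (2 ^ (J - W)) (Tm F W) ω))) := by ring
      rw [g2, abs_mul, abs_mul, abs_of_pos (by positivity : (0 : ℝ) < 2 ^ M),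
        abs_of_pos (by positivity : (0 : ℝ) < (1 / 2) ^ j)]
      have g3 : ((1 : ℝ) / 2) ^ j ≤ 1 := pow_le_one₀ (by norm_num) (by norm_num)
      have g4 : (2 : ℝ) ^ M * (1 / 2 ^ (M - Q)) = 2 ^ Q := by
        have : (2 : ℝ) ^ M = 2 ^ Q * 2 ^ (M - Q) := by
          rw [← pow_add, Nat.add_sub_cancel' hQM]
        rw [this]
        field_simp
      have g5 : (2 : ℝ) ^ Q ≤ 2 ^ (μ * J) := by
        rw [← Real.rpow_natCast]
        exact Real.rpow_le_rpow_of_exponent_le (by norm_num) hQμ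
      calc (2 : ℝ) ^ M * ((1 / 2) ^ j * _) ≤ 2 ^ M * (1 * (C * (1 / 2 ^ (M - Q)))) :=
            mul_le_mul_of_nonneg_left (mul_le_mul g3 g1 (abs_nonneg _) (by norm_num))
              (by positivity)
        _ = C * (2 ^ M * (1 / 2 ^ (M - Q))) := by ring
        _ = C * 2 ^ Q := by rw [g4]
        _ ≤ ⌈C⌉₊ * 2 ^ (μ * J) := mul_le_mul (Nat.le_ceil C) g5 (by positivity)
            (Nat.cast_nonneg _)
    linarith

/-- The rows of the path at the centre. -/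
theorem nfg_ctr {h c₀ c₁ : ℝ} {N₁ : ℕ} (hN₁ : 0 < N₁) (hA : 0 < Pe F.p A) (hδ1 : δ ≤ 1)
    (hμ : 0 < μ) (hQμ : (Q : ℝ) ≤ μ * J) (hM : M ≤ MB) (hc₁ : 0 < c₁) (hc₁1 : c₁ ≤ 1)
    (hc₁₀ : c₁ ≤ c₀)
    (hT : TL K d D CM Q MB k (2 ^ (J - W)) δ (Pool.Agent.H49.Ent.cond F.p A True) (slam F W)
      (Tm F W) Z a E X Pf Pg c s ξ n Θ)
    (hI : Im K d D Q M (2 ^ (J - W)) δ (Pool.Agent.H49.Ent.cond F.p A True) (slam F W)
      (Tm F W) Z a E Pf c s ξ n P)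
    (hkey : Det (Pool.Agent.H49.Ent.cond F.p A True) a F.W)
    (hb : Det (Pool.Agent.H49.Ent.cond F.p A True)
      (fun ω => (xd k (slam F W) ξ ω, (c (slam F W ω), F.W ω))) b)
    (hnf : ∀ B : F.Ω → Prop, Sub B A → c₀ * Pe F.p A ≤ Pe F.p B → ∀ i j : ℕ, i ≤ j → j ≤ N₁ →
      CH (Pool.Agent.H49.Ent.cond F.p B True)
        (fun ω => ⌊2 ^ M * (n (slam F W ω)).eval (uu (2 ^ (J - W)) (Tm F W) ω) /
          2 ^ ((μ * i / N₁) * J)⌋)
        (fun ω => (⌊2 ^ M * (n (slam F W ω)).eval (uu (2 ^ (J - W)) (Tm F W) ω) /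
          2 ^ ((μ * j / N₁) * J)⌋, (b ω, F.W ω))) ≤
        ((1 - h) * (μ * j / N₁ - μ * i / N₁) * Real.log 2 + δ * μ) * J)
    (h1 : δ / c₁ * (CM + 10) ≤ δ₀ / 2)
    (h2 : (2 * Real.log 2 + Real.log 7 + Real.log (C₂ D) + Real.log 5 +
      2 * Real.log (C₃ K d D)) / c₁ ≤ δ₀ / 2 * (μ * J)) :
    Pool.AJ18.NFg F (fun ω => A ω ∧ 0 < F.p ω) (Rc M P) (tC K d D Q M c P) W μ h (δ₀ * μ) c₀
      N₁ := by
  intro B hB hmass i j hij hj
  rw [Pe_pos F.isLaw.nonneg] at hmass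
  have hBA : Sub B A := fun ω hω => (hB ω hω).1
  have hPB : 0 < Pe F.p B := by
    have : 0 < c₀ * Pe F.p A := mul_pos (hc₁.trans_le hc₁₀) hA
    linarith
  have hmass1 : c₁ * Pe F.p A ≤ Pe F.p B :=
    (mul_le_mul_of_nonneg_right hc₁₀ hA.le).trans hmass
  have hnf' := hnf B hBA hmass i j hij hj
  have hq'l : IsLaw (Pool.Agent.H49.Ent.cond F.p B True) := isLaw_cond F.isLaw hPB
  have hpos : ∀ ω, 0 < Pool.Agent.H49.Ent.cond F.p B True ω →
      0 < Pool.Agent.H49.Ent.cond F.p A True ω := by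
    intro ω hω
    have hBω := Pool.LA91.of_cond_pos hω
    have hp : 0 < F.p ω := by
      by_contra hcon
      have h0 : F.p ω = 0 := le_antisymm (not_lt.1 hcon) (F.isLaw.nonneg ω)
      unfold Pool.Agent.H49.Ent.cond at hω
      rw [h0, zero_div, ite_self] at hω
      exact lt_irrefl _ hω
    unfold Pool.Agent.H49.Ent.cond
    rw [if_pos (eq_true (hBA ω hBω))]
    exact div_pos hp hA
  have hJ0 : (0 : ℝ) ≤ J := Nat.cast_nonneg J
  have hx0 : 0 ≤ μ * J := by positivity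
  have hδ0 := hT.δ0
  have hδQ : δ * Q ≤ δ * (μ * J) := mul_le_mul_of_nonneg_left hQμ hδ0
  have hCM : (0 : ℝ) ≤ CM := Nat.cast_nonneg _
  have hMx : (M : ℝ) ≤ CM * (μ * J) := by
    have g1 : (M : ℝ) ≤ CM * Q := by exact_mod_cast hM.trans hT.hMB
    exact g1.trans (mul_le_mul_of_nonneg_left hQμ hCM)
  have hN0 : (0 : ℝ) < N₁ := by exact_mod_cast hN₁
  -- the units
  obtain ⟨x, hx⟩ : ∃ x : ℝ, x = (μ * i / N₁) * J := ⟨_, rfl⟩
  obtain ⟨x', hx'⟩ : ∃ x' : ℝ, x' = (μ * j / N₁) * J := ⟨_, rfl⟩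
  have hx00 : 0 ≤ x := by
    rw [hx]
    positivity
  have hxx : x ≤ x' := by
    rw [hx, hx']
    have : (i : ℝ) ≤ j := by exact_mod_cast hij
    gcongr
  have p0 : (0 : ℝ) < 2 ^ M := by positivity
  have p1 : (0 : ℝ) < 2 ^ x := Real.rpow_pos_of_pos (by norm_num) _
  have p2 : (0 : ℝ) < 2 ^ x' := Real.rpow_pos_of_pos (by norm_num) _
  have p3 : (1 : ℝ) ≤ 2 ^ x := Real.one_le_rpow (by norm_num) hx00
  have p4 : (2 : ℝ) ^ x ≤ 2 ^ x' := Real.rpow_le_rpow_of_exponent_le (by norm_num) hxx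
  rw [← hx, ← hx'] at hnf' ⊢
  have er : ∀ y z : ℝ, (2 : ℝ) ^ M * y / 2 ^ z = 2 ^ M / 2 ^ z * y := fun y z => by ring
  -- the full entropy of the digits on `B`
  have hZW : Det (Pool.Agent.H49.Ent.cond F.p A True) Z F.W := fun ω ω' hω hω' e =>
    hkey ω ω' hω hω' (hT.Za ω ω' hω hω' e)
  have f1 : d * (k * Real.log 2) - δ * Q ≤ CH (Pool.Agent.H49.Ent.cond F.p A True)
      (xd k (slam F W) ξ) (fun ω => (Z ω, (E ω, F.W ω))) := by
    refine hT.full.trans (CH_mono_cond hT.law.nonneg fun ω ω' hω hω' e => ?_)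
    simp only [Prod.mk.injEq] at e ⊢
    exact ⟨e.1, e.2, hZW ω ω' hω hω' e.1⟩
  have f2 := Pool.LF65.CH_cond_low hT.law (A := B) (by
      have : Pe (Pool.Agent.H49.Ent.cond F.p A True) B = Pe F.p B / Pe F.p A := by
        rw [Pe_cond]
        congr 1
        congr 1
        funext ω
        exact propext ⟨fun h' => h'.2, fun h' => ⟨hBA ω h', h'⟩⟩
      rw [this]
      exact div_pos hPB hA) (xd k (slam F W) ξ) (fun ω => (Z ω, (E ω, F.W ω))) f1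
    (fun Q' hQ' _ => (xd_cnt hT hQ' _).trans (le_add_of_nonneg_right hT.Q0)) hT.Q0
  have f3 : Pe (Pool.Agent.H49.Ent.cond F.p A True) B = Pe F.p B / Pe F.p A := by
    rw [Pe_cond]
    congr 1
    congr 1
    funext ω
    exact propext ⟨fun h' => h'.2, fun h' => ⟨hBA ω h', h'⟩⟩
  rw [Piece.cond_cond hBA hA.ne'] at f2
  have f4 : c₁ ≤ Pe (Pool.Agent.H49.Ent.cond F.p A True) B := by
    rw [f3, le_div_iff₀ hA]
    exact hmass1
  have l2 : 0 ≤ Real.log 2 := Real.log_nonneg (by norm_num)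
  have f5 : (2 * (δ * Q) + Real.log 2) / Pe (Pool.Agent.H49.Ent.cond F.p A True) B ≤
      (2 * (δ * Q) + Real.log 2) / c₁ := by
    have := hT.Q0
    exact div_le_div_of_nonneg_left (by positivity) hc₁ f4
  have f6 : d * (k * Real.log 2) - (2 * (δ * Q) + Real.log 2) / c₁ ≤
      CH (Pool.Agent.H49.Ent.cond F.p B True) (xd k (slam F W) ξ)
        (fun ω => (Z ω, (E ω, F.W ω))) := by linarith
  -- the context on `B`
  have f7 : CH (Pool.Agent.H49.Ent.cond F.p B True)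
      (fun ω => tC K d D Q M c P (slam F W ω)) (fun ω => (Z ω, (E ω, F.W ω))) ≤
      δ * Q / c₁ :=
    Pool.OWN83.ch_part F.isLaw hBA hA hc₁ hmass1 _ _ (by
      have g1 := tC_fewZ hT hI F.W
      have g2 : c₁ * (δ * Q / c₁) = δ * Q := by field_simp
      rw [g2]
      exact g1)
  -- the bad event on `B`
  have f8 := Pb_part F.isLaw hBA hA hc₁ hmass1 _ hI.cls
  -- the rows
  have key := row_ctr hT hI hM hq'l hpos (η := δ / c₁) f8 F.W b
    (fun ω ω' hω hω' e => by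
      have e1 : F.T ω = F.T ω' := (Prod.ext_iff.mp e).1
      show F.T ω % 2 ^ (J - W) = F.T ω' % 2 ^ (J - W)
      rw [e1]) hb (t := 2 ^ M / 2 ^ x) (t' := 2 ^ M / 2 ^ x') (by positivity)
    (div_le_div_of_nonneg_left p0.le p1 p4) (div_le_self p0.le p3)
    (R := ((1 - h) * (μ * j / N₁ - μ * i / N₁) * Real.log 2 + δ * μ) * J)
    (by
      simp only [er] at hnf'
      exact hnf') f6 f7
  have e5 : ∀ z : ℝ, (fun ω => ⌊pj F (Rc M P) W 0 ω / 2 ^ z⌋) = fun ω => ⌊2 ^ M / 2 ^ z *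
      (P (slam F W ω) (fun _ => 0)).eval (uu (2 ^ (J - W)) (Tm F W) ω)⌋ := by
    intro z
    funext ω
    rw [pj_Rc, pow_zero, one_mul, Function.iterate_zero, id, er]
  have e6 : (fun ω => (⌊pj F (Rc M P) W 0 ω / 2 ^ x'⌋,
      (tC K d D Q M c P (slam F W ω), F.W ω))) = fun ω => (⌊2 ^ M / 2 ^ x' *
      (P (slam F W ω) (fun _ => 0)).eval (uu (2 ^ (J - W)) (Tm F W) ω)⌋,
      (tC K d D Q M c P (slam F W ω), F.W ω)) := by
    funext ω
    rw [congrFun (e5 x') ω]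
  rw [e5 x, e6]
  refine key.trans ?_
  -- the numbers
  obtain ⟨n1, n2, n3, n4⟩ := num K d D M Q hT.Q0
  have l7 : 0 ≤ Real.log 7 := Real.log_nonneg (by norm_num)
  have l5 : 0 ≤ Real.log 5 := Real.log_nonneg (by norm_num)
  have lC2 : 0 ≤ Real.log (C₂ D) := Real.log_nonneg (one_le_C₂ D)
  have lC3 : 0 ≤ Real.log (C₃ K d D) := Real.log_nonneg (one_le_C₃ K d D)
  have hδc : 0 ≤ δ / c₁ := by positivity
  have hδc1 : δ ≤ δ / c₁ := by
    rw [le_div_iff₀ hc₁]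
    exact mul_le_of_le_one_right hδ0 hc₁1
  obtain ⟨y, hy⟩ : ∃ y, y = μ * J := ⟨_, rfl⟩
  obtain ⟨r, hr⟩ : ∃ r, r = δ / c₁ := ⟨_, rfl⟩
  rw [← hy] at hQμ hx0 hδQ hMx h2
  rw [← hr] at hδc hδc1 h1
  have g1 : δ * Q ≤ r * y := by
    exact hδQ.trans (mul_le_mul_of_nonneg_right hδc1 hx0)
  have g2 : (2 * (δ * Q) + Real.log 2) / c₁ ≤ 2 * (r * y) + Real.log 2 / c₁ := by
    have g3 : (2 * (δ * Q) + Real.log 2) / c₁ = 2 * (r * Q) + Real.log 2 / c₁ := by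
      rw [hr]
      ring
    rw [g3]
    have := mul_le_mul_of_nonneg_left hQμ hδc
    linarith
  have g3 : δ * Q / c₁ ≤ r * y := by
    have g4 : δ * Q / c₁ = r * Q := by
      rw [hr]
      ring
    rw [g4]
    exact mul_le_mul_of_nonneg_left hQμ hδc
  have g4 : r * Real.log (4 * (2 ^ M * ((D + 1) * 2 ^ (δ * Q)) + 1) + 1) ≤
      Real.log (C₂ D) / c₁ + r * (CM * y) + r * y := by
    have g5 := mul_le_mul_of_nonneg_left n2 hδc
    have g6 : r * Real.log (C₂ D) ≤ Real.log (C₂ D) / c₁ := by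
      rw [hr, div_mul_eq_mul_div]
      exact div_le_div_of_nonneg_right (mul_le_of_le_one_left lC2 hδ1) hc₁.le
    have g7 : r * (M : ℝ) ≤ r * (CM * y) := mul_le_mul_of_nonneg_left hMx hδc
    have g8 : r * (δ * Q) ≤ r * y := mul_le_mul_of_nonneg_left
      ((mul_le_of_le_one_left (Nat.cast_nonneg Q) hδ1).trans hQμ) hδc
    linarith
  have g5 : ((1 - h) * (μ * j / N₁ - μ * i / N₁) * Real.log 2 + δ * μ) * J =
      (1 - h) * (μ * j / N₁ - μ * i / N₁) * Real.log 2 * J + δ * y := by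
    rw [hy]
    ring
  have g6 : ((1 - h) * (μ * j / N₁ - μ * i / N₁) * Real.log 2 + δ₀ * μ) * J =
      (1 - h) * (μ * j / N₁ - μ * i / N₁) * Real.log 2 * J + δ₀ * y := by
    rw [hy]
    ring
  have g7 : δ * y ≤ r * y := mul_le_mul_of_nonneg_right hδc1 hx0
  have g8 : ∀ t : ℝ, 0 ≤ t → t ≤ t / c₁ := fun t ht => by
    rw [le_div_iff₀ hc₁]
    exact mul_le_of_le_one_right ht hc₁1
  have g9 := g8 _ l2
  have g10 := g8 _ l7
  have g11 := g8 _ l5
  have g12 := g8 _ lC3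
  have g13 : (2 * Real.log 2 + Real.log 7 + Real.log (C₂ D) + Real.log 5 +
      2 * Real.log (C₃ K d D)) / c₁ = 2 * (Real.log 2 / c₁) + Real.log 7 / c₁ +
      Real.log (C₂ D) / c₁ + Real.log 5 / c₁ + 2 * (Real.log (C₃ K d D) / c₁) := by ring
  rw [g13] at h2
  have g14 : r * (CM + 10) * y ≤ δ₀ / 2 * y := mul_le_mul_of_nonneg_right h1 hx0
  have g15 : r * (CM + 10) * y = r * (CM * y) + 10 * (r * y) := by ring
  have g16 : 0 ≤ r * y := mul_nonneg hδc hx0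
  rw [g5, g6, ← hr]
  linarith

end hyp

/-- **All jets of the centre of the tube** on the lines of a family. -/
theorem jets_fam (K d D CM : ℕ) {h : ℝ} (hh : 0 < h) (hh1 : h ≤ 1) {ε : ℝ} (hε : 0 < ε) :
    ∃ δ : ℝ, 0 < δ ∧ ∃ c₀ : ℝ, 0 < c₀ ∧ ∃ N₁ : ℕ, 0 < N₁ ∧
    ∀ {w μ : ℝ} (_ : 0 ≤ w) (_ : 0 < μ) (_ : w + μ ≤ 1), ∃ J₀ : ℕ, ∀ J ≥ J₀, ∀ {m : ℕ}
      (F : Fam m J) (A : F.Ω → Prop) (_ : 0 < Pe F.p A) {MB k M : ℕ} {ζ α ε' κ β : Type}
      {Z : F.Ω → ζ} {a : F.Ω → α} {E : F.Ω → ε'} {X : ε' → Fin (d + 1) → ℝ}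
      {Pf : ζ → MvPolynomial (Fin d) ℝ} {Pg : ζ → Fin (d + 1) → MvPolynomial (Fin d) ℝ}
      {c : LnT F → κ} {s : F.Ω → Fin d → ℝ} {ξ : LnT F → Fin d → ℝ} {n : LnT F → Polynomial ℝ}
      {Θ : LnT F → Fin d → Polynomial ℝ} {P : LnT F → Gr K d → Polynomial ℝ} (b : F.Ω → β),
    TL K d D CM ⌊μ * J⌋₊ MB k (2 ^ (J - ⌊w * J⌋₊)) δ (Pool.Agent.H49.Ent.cond F.p A True)
      (slam F ⌊w * J⌋₊) (Tm F ⌊w * J⌋₊) Z a E X Pf Pg c s ξ n Θ →
    Im K d D ⌊μ * J⌋₊ M (2 ^ (J - ⌊w * J⌋₊)) δ (Pool.Agent.H49.Ent.cond F.p A True)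
      (slam F ⌊w * J⌋₊) (Tm F ⌊w * J⌋₊) Z a E Pf c s ξ n P →
    ⌊μ * J⌋₊ ≤ M → M ≤ MB →
    (J : ℝ) * Real.log 2 - δ * μ * J ≤
      CH (Pool.Agent.H49.Ent.cond F.p A True) F.T (fun ω => (F.l ω, F.Z ω)) →
    Det (Pool.Agent.H49.Ent.cond F.p A True) a F.W →
    Det (Pool.Agent.H49.Ent.cond F.p A True)
      (fun ω => (xd k (slam F ⌊w * J⌋₊) ξ ω, (c (slam F ⌊w * J⌋₊ ω), F.W ω))) b →
    (∀ B : F.Ω → Prop, Sub B A → c₀ * Pe F.p A ≤ Pe F.p B → ∀ i j : ℕ, i ≤ j → j ≤ N₁ →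
      CH (Pool.Agent.H49.Ent.cond F.p B True)
        (fun ω => ⌊2 ^ M * (n (slam F ⌊w * J⌋₊ ω)).eval
          (uu (2 ^ (J - ⌊w * J⌋₊)) (Tm F ⌊w * J⌋₊) ω) / 2 ^ ((μ * i / N₁) * J)⌋)
        (fun ω => (⌊2 ^ M * (n (slam F ⌊w * J⌋₊ ω)).eval
          (uu (2 ^ (J - ⌊w * J⌋₊)) (Tm F ⌊w * J⌋₊) ω) / 2 ^ ((μ * j / N₁) * J)⌋,
          (b ω, F.W ω))) ≤
        ((1 - h) * (μ * j / N₁ - μ * i / N₁) * Real.log 2 + δ * μ) * J) →
    Jets K d D ⌊μ * J⌋₊ M ε (Pool.Agent.H49.Ent.cond F.p A True) (slam F ⌊w * J⌋₊) Z a E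
      Pf P := by
  obtain ⟨ε₁, hε₁⟩ : ∃ ε₁ : ℝ, ε₁ = ε / (2 * (D + 2)) := ⟨_, rfl⟩
  have hD0 : (0 : ℝ) ≤ D := Nat.cast_nonneg D
  have hε₁0 : 0 < ε₁ := by
    rw [hε₁]
    positivity
  have hε₁a : (D + 2) * ε₁ = ε / 2 := by
    rw [hε₁]
    field_simp
  obtain ⟨δ₀, hδ₀, c₀, hc₀, N₁, hN₁, H⟩ :=
    Pool.AJ18.all_jets (D + 1) (by omega) hh hh1 hε₁0
  obtain ⟨C, hC1, hC⟩ := der_small D
  obtain ⟨C', hC'1, hC'⟩ := cof_small D
  obtain ⟨C'', hC''1, hC''⟩ := der_small (D + 1)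
  obtain ⟨c₁, hc₁⟩ : ∃ c₁ : ℝ, c₁ = min c₀ 1 := ⟨_, rfl⟩
  have hc₁0 : 0 < c₁ := by
    rw [hc₁]
    exact lt_min hc₀ one_pos
  have hc₁1 : c₁ ≤ 1 := by
    rw [hc₁]
    exact min_le_right _ _
  have hc₁₀ : c₁ ≤ c₀ := by
    rw [hc₁]
    exact min_le_left _ _
  have hCM : (0 : ℝ) ≤ CM := Nat.cast_nonneg CM
  obtain ⟨δ, hδ⟩ : ∃ δ : ℝ, δ = min 1 (δ₀ * c₁ / (2 * (CM + 10))) := ⟨_, rfl⟩
  have hδ0 : 0 < δ := by
    rw [hδ]
    exact lt_min one_pos (by positivity)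
  have hδ1 : δ ≤ 1 := by
    rw [hδ]
    exact min_le_left _ _
  have hδa : δ / c₁ * (CM + 10) ≤ δ₀ / 2 := by
    have h1 : δ ≤ δ₀ * c₁ / (2 * (CM + 10)) := by
      rw [hδ]
      exact min_le_right _ _
    rw [le_div_iff₀ (by positivity)] at h1
    rw [div_mul_eq_mul_div, div_le_iff₀ hc₁0]
    linarith
  have hδb : δ * (CM + 5) ≤ δ₀ / 2 := by
    have h1 : δ ≤ δ / c₁ := by
      rw [le_div_iff₀ hc₁0]
      exact mul_le_of_le_one_right hδ0.le hc₁1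
    refine le_trans ?_ hδa
    exact mul_le_mul h1 (by linarith) (by positivity) (by positivity)
  refine ⟨δ, hδ0, c₀, hc₀, N₁, hN₁, ?_⟩
  intro w μ hw hμ hwμ
  obtain ⟨J₁, H⟩ := H hw hμ hwμ
  -- the constants
  obtain ⟨k₁, hk₁⟩ : ∃ k₁ : ℝ, k₁ = Real.log 2 + Real.log (C₁ K d D) + Real.log (C₂ D) +
      Real.log (2 * ((⌈C⌉₊ + 1 : ℕ) : ℝ) + 1) := ⟨_, rfl⟩
  obtain ⟨k₂, hk₂⟩ : ∃ k₂ : ℝ, k₂ = (2 * Real.log 2 + Real.log 7 + Real.log (C₂ D) +
      Real.log 5 + 2 * Real.log (C₃ K d D)) / c₁ := ⟨_, rfl⟩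
  obtain ⟨C₅, hC₅⟩ : ∃ C₅ : ℝ, C₅ = C' * (2 ^ (D + 1) * C'') := ⟨_, rfl⟩
  have hC₅1 : 1 ≤ C₅ := by
    rw [hC₅]
    have h1 : (1 : ℝ) ≤ 2 ^ (D + 1) := one_le_pow₀ (by norm_num)
    exact one_le_mul_of_one_le_of_one_le hC'1 (one_le_mul_of_one_le_of_one_le h1 hC''1)
  obtain ⟨k₃, hk₃⟩ : ∃ k₃ : ℝ, k₃ = (D + 1) * Real.log (2 * C₅ + 3) + ε := ⟨_, rfl⟩
  obtain ⟨J₂, hJ₂⟩ := exists_nat_ge (|k₁| / (δ₀ / 2 * μ) + |k₂| / (δ₀ / 2 * μ) +
    |k₃| / (ε / 2 * μ))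
  refine ⟨max J₁ J₂, ?_⟩
  intro J hJ m F A hA MB k M ζ α ε' κ β Z a E X Pf Pg c s ξ n Θ P b hT hI hQM hM htim hkey hb hnf
  have hJ2 : (J₂ : ℝ) ≤ J := by exact_mod_cast (le_max_right _ _).trans hJ
  have hJ0 : (0 : ℝ) ≤ J := Nat.cast_nonneg J
  have hx0 : 0 ≤ μ * J := by positivity
  have hQμ : ((⌊μ * J⌋₊ : ℕ) : ℝ) ≤ μ * J := Nat.floor_le hx0
  have hQμ' : μ * J < (⌊μ * J⌋₊ : ℕ) + 1 := Nat.lt_floor_add_one _
  have a1 : 0 ≤ |k₁| / (δ₀ / 2 * μ) := by positivity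
  have a2 : 0 ≤ |k₂| / (δ₀ / 2 * μ) := by positivity
  have a3 : 0 ≤ |k₃| / (ε / 2 * μ) := by positivity
  have q1 : k₁ ≤ δ₀ / 2 * (μ * J) := by
    have h1 : |k₁| / (δ₀ / 2 * μ) ≤ J := by linarith
    rw [div_le_iff₀ (by positivity)] at h1
    have := le_abs_self k₁
    linarith
  have q2 : k₂ ≤ δ₀ / 2 * (μ * J) := by
    have h1 : |k₂| / (δ₀ / 2 * μ) ≤ J := by linarith
    rw [div_le_iff₀ (by positivity)] at h1
    have := le_abs_self k₂
    linarith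
  have q3 : k₃ ≤ ε / 2 * (μ * J) := by
    have h1 : |k₃| / (ε / 2 * μ) ≤ J := by linarith
    rw [div_le_iff₀ (by positivity)] at h1
    have := le_abs_self k₃
    linarith
  have i1 := H J ((le_max_left _ _).trans hJ) F (fun ω => A ω ∧ 0 < F.p ω) (by
      rw [Pe_pos F.isLaw.nonneg]
      exact hA) (Rc M P) (tC K d D ⌊μ * J⌋₊ M c P) (fun ω => (E ω, Key M Z a Pf ω))
    (ajh hC1 hC hA hδ1 hμ hQμ hQM hM hT hI htim hkey hδb (by
      rw [← hk₁]
      exact q1))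
    (nfg_ctr hN₁ hA hδ1 hμ hQμ hM hc₁0 hc₁1 hc₁₀ hT hI hkey hb hnf hδa (by
      rw [← hk₂]
      exact q2))
  rw [cond_pos F.isLaw.nonneg] at i1
  obtain ⟨q, hq⟩ : ∃ q, q = Pool.Agent.H49.Ent.cond F.p A True := ⟨_, rfl⟩
  obtain ⟨W, hW⟩ : ∃ W, W = ⌊w * J⌋₊ := ⟨_, rfl⟩
  obtain ⟨Q, hQ⟩ : ∃ Q, Q = ⌊μ * J⌋₊ := ⟨_, rfl⟩
  rw [← hq, ← hW] at i1
  rw [← hq, ← hW, ← hQ] at hT hI ⊢
  rw [← hQ] at hQM hQμ hQμ'
  have hq0 := hT.law.nonneg
  obtain ⟨B, hB⟩ : ∃ B : ℝ, B = 2 ^ (ε₁ * μ * J) := ⟨_, rfl⟩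
  have hB0 : 0 < B := by
    rw [hB]
    exact Real.rpow_pos_of_pos (by norm_num) _
  have hex : 0 ≤ ε₁ * μ * J := by positivity
  have hB1 : 1 ≤ B := by
    rw [hB]
    exact Real.one_le_rpow (by norm_num) hex
  rw [← hB] at i1
  obtain ⟨V, hV⟩ : ∃ V : F.Ω → Fin (D + 1 + 1) → ℤ, V = fun ω (j : Fin (D + 1 + 1)) =>
    ⌊(Rc M P (slam F W ω)).coeff j / B⌋ := ⟨_, rfl⟩
  have i2 : CH q V (fun ω => (E ω, Key M Z a Pf ω)) ≤ ε₁ * μ * J := by
    refine le_trans (CH_mono_left hq0 fun ω ω' _ _ e => ?_) i1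
    have e1 := (Prod.ext_iff.mp (Prod.ext_iff.mp e).1).2
    rw [hV]
    exact e1
  obtain ⟨U, hU⟩ : ∃ U : F.Ω → Fin (D + 1) → ℤ, U = fun ω (j : Fin (D + 1)) =>
    ⌊2 ^ M * (P (slam F W ω) (fun _ => 0)).coeff j⌋ := ⟨_, rfl⟩
  have i3 : CH q U (fun ω => (V ω, (E ω, Key M Z a Pf ω))) ≤
      (D + 1) * Real.log (2 * (C₅ * B + 1) + 1) := by
    have h1 := CH_vecκ hq0 hT.law.sum_one U (fun ω => (V ω, (E ω, Key M Z a Pf ω)))
      (fun _ => C₅ * B + 1) (by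
        intro ω ω' hω hω' e j
        rw [hU]
        refine (floor_diff _ _).trans (add_le_add ?_ le_rfl)
        have e1 := (Prod.ext_iff.mp e).1
        simp only at e1
        rw [← mul_sub, ← Polynomial.coeff_sub]
        obtain ⟨G, hG⟩ : ∃ G, G = P (slam F W ω) (fun _ => 0) - P (slam F W ω') (fun _ => 0) :=
          ⟨_, rfl⟩
        rw [← hG]
        have hGd : G.natDegree ≤ D := by
          rw [hG]
          exact (Polynomial.natDegree_sub_le _ _).trans (max_le (hI.deg _ _) (hI.deg _ _))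
        have p0 : (0 : ℝ) < 2 ^ M := by positivity
        have hcf := hC' G j (1 / 2) (2 ^ (D + 1) * C'' * B / 2 ^ M) hGd (by
          rw [abs_of_pos (by norm_num)]
          norm_num) (by
          intro i _
          by_cases hi : i ≤ D
          · have g1 : ∀ x, Polynomial.derivative^[i] (Rc M P x) =
                Polynomial.C (2 ^ M) * (Polynomial.C ((1 / 2) ^ i) *
                  (Polynomial.derivative^[i] (P x (fun _ => 0))).comp
                  (Polynomial.C (1 / 2) * Polynomial.X + Polynomial.C (1 / 2))) := by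
              intro x
              unfold Rc
              rw [Polynomial.iterate_derivative_C_mul, Pool.AJ18.der_aff]
            have g2 := hC'' (Rc M P (slam F W ω) - Rc M P (slam F W ω')) i 0 B
              ((Polynomial.natDegree_sub_le _ _).trans (max_le
                ((deg_Rc M hI.deg _).trans (Nat.le_succ D))
                ((deg_Rc M hI.deg _).trans (Nat.le_succ D)))) (by simp) (by
                intro i' _
                by_cases hi' : i' ≤ D + 1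
                · rw [Polynomial.coeff_sub]
                  rw [hV] at e1
                  exact of_floor_div hB0 (congrFun e1 (⟨i', by omega⟩ : Fin (D + 1 + 1)))
                · rw [Polynomial.coeff_eq_zero_of_natDegree_lt (by
                    have := (Polynomial.natDegree_sub_le (Rc M P (slam F W ω))
                      (Rc M P (slam F W ω'))).trans (max_le
                      (deg_Rc M hI.deg _) (deg_Rc M hI.deg _))
                    omega), abs_zero]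
                  exact hB0.le)
            rw [Polynomial.iterate_derivative_sub, g1, g1, Polynomial.eval_sub] at g2
            simp only [Polynomial.eval_mul, Polynomial.eval_C, Polynomial.eval_comp,
              Polynomial.eval_add, Polynomial.eval_X, mul_zero, zero_add] at g2
            rw [hG, Polynomial.iterate_derivative_sub, Polynomial.eval_sub]
            rw [← mul_sub, ← mul_sub, abs_mul, abs_mul, abs_of_pos p0,
              abs_of_pos (by positivity : (0 : ℝ) < (1 / 2) ^ i)] at g2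
            rw [le_div_iff₀ p0]
            obtain ⟨y, hy⟩ : ∃ y, y = |(Polynomial.derivative^[i]
              (P (slam F W ω) (fun _ => 0))).eval (1 / 2) - (Polynomial.derivative^[i]
              (P (slam F W ω') (fun _ => 0))).eval (1 / 2)| := ⟨_, rfl⟩
            rw [← hy] at g2 ⊢
            have hy0 : 0 ≤ y := by
              rw [hy]
              exact abs_nonneg _
            have g3 : (2 : ℝ) ^ i * (1 / 2) ^ i = 1 := by
              rw [← mul_pow]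
              norm_num
            have g4 : (2 : ℝ) ^ i ≤ 2 ^ (D + 1) :=
              pow_le_pow_right₀ (by norm_num) (by omega)
            calc y * 2 ^ M = 2 ^ i * (1 / 2) ^ i * (2 ^ M * y) := by
                  rw [g3]
                  ring
              _ = 2 ^ i * (2 ^ M * ((1 / 2) ^ i * y)) := by ring
              _ ≤ 2 ^ (D + 1) * (C'' * B) :=
                  mul_le_mul g4 g2 (by positivity) (by positivity)
              _ = _ := by ring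
          · rw [Polynomial.iterate_derivative_eq_zero (by omega), Polynomial.eval_zero, abs_zero]
            positivity)
        rw [abs_mul, abs_of_pos p0]
        calc (2 : ℝ) ^ M * |G.coeff j| ≤ 2 ^ M * (C' * (2 ^ (D + 1) * C'' * B / 2 ^ M)) :=
              mul_le_mul_of_nonneg_left hcf p0.le
          _ = C₅ * B := by
              rw [hC₅]
              field_simp)
    rw [Ex_const hT.law.sum_one, Fintype.card_fin] at h1
    push_cast at h1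
    exact h1
  have i4 : CH q U (fun ω => (E ω, Key M Z a Pf ω)) ≤ CH q V (fun ω => (E ω, Key M Z a Pf ω)) +
      CH q U (fun ω => (V ω, (E ω, Key M Z a Pf ω))) := CH_le_add hq0 U V _
  have i5 : Real.log (2 * (C₅ * B + 1) + 1) ≤ Real.log (2 * C₅ + 3) + ε₁ * μ * J := by
    refine log_c (by linarith) hex (by positivity) ?_
    rw [← hB]
    nlinarith
  have i6 : (D + 1) * Real.log (2 * (C₅ * B + 1) + 1) ≤
      (D + 1) * (Real.log (2 * C₅ + 3) + ε₁ * μ * J) :=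
    mul_le_mul_of_nonneg_left i5 (by positivity)
  show CH q (fun ω => fun j : Fin (D + 1) => ⌊2 ^ M * (P (slam F W ω) (fun _ => 0)).coeff j⌋)
    (fun ω => (E ω, Key M Z a Pf ω)) ≤ ε * Q
  rw [← hU]
  have i7 : (D + 2) * ε₁ * (μ * J) = ε / 2 * (μ * J) := by rw [hε₁a]
  have i8 : ε * (μ * J) ≤ ε * Q + ε := by
    have := mul_le_mul_of_nonneg_left hQμ'.le hε.le
    linarith
  have i9 : (D + 1) * (Real.log (2 * C₅ + 3) + ε₁ * μ * J) + ε₁ * μ * J =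
      (D + 1) * Real.log (2 * C₅ + 3) + (D + 2) * ε₁ * (μ * J) := by ring
  linarith

end fam

end Pool.V1E
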